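import Pool.Agent.H88.BL.Targets

/-!
# Row LF of the board bll (helper88, MP_21f5c5_an)

The integral of the characteristic function over the low frequencies.
-/

set_option autoImplicit false
open MeasureTheory ProbabilityTheory Filter Topology Set
open scoped ENNReal NNReal

namespace Pool.Agent.H1.BL

open Pool.Agent.H88.BL

theorem gp_low (hC : T_COS) (hN : T_NDT) {t : ℝ} {N : ℕ} (h : Par t N) {y : ℝ}
    (hy : |y| ≤ 1 / 6) : gp t N y ≤ Real.exp (-(2 * N / 9) * y ^ 2) := by
  unfold gp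
  have h1 : ∏ n ∈ Finset.range N, |Real.cos (Real.pi * (y * t ^ n))| ≤
      ∏ _n ∈ Finset.range N, Real.exp (-(2 / 9 * y ^ 2)) := by
    refine Finset.prod_le_prod (fun n _ => abs_nonneg _) fun n hn => ?_
    refine (hC _).trans (Real.exp_le_exp.mpr ?_)
    have ht1 : t ^ n ≤ 1 := pow_le_one₀ h.pos.le h.lt.le
    have ht0 : 0 < t ^ n := pow_pos h.pos n
    have ht3 : 1 / 3 ≤ t ^ n := h.lo.trans
      (pow_le_pow_of_le_one h.pos.le h.lt.le (Finset.mem_range.mp hn).le)
    have h2 : |y * t ^ n| = |y| * t ^ n := by rw [abs_mul, abs_of_pos ht0]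
    have h3 : |y * t ^ n| ≤ 1 / 2 := by
      rw [h2]
      nlinarith [abs_nonneg y]
    rw [hN.2 _ h3, sq_abs, mul_pow]
    have h4 : 1 / 9 ≤ (t ^ n) ^ 2 := by nlinarith
    have h5 := mul_le_mul_of_nonneg_left h4 (sq_nonneg y)
    linarith
  refine h1.trans (le_of_eq ?_)
  rw [Finset.prod_const, Finset.card_range, ← Real.exp_nat_mul]
  congr 1
  ring

theorem pf_LF (hC : T_COS) (hN : T_NDT) (hF : T_CF) : T_LF := by
  intro t N h
  have hNpos : (0 : ℝ) < N := by exact_mod_cast h.N1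
  have hb : (0 : ℝ) < 2 * N / 9 := by positivity
  have hS : MeasurableSet {y : ℝ | |y| ≤ 1 / 6} :=
    (isClosed_le continuous_abs continuous_const).measurableSet
  calc ∫⁻ y in {y : ℝ | |y| ≤ 1 / 6}, ENNReal.ofReal ‖cf t y‖
      ≤ ∫⁻ y in {y : ℝ | |y| ≤ 1 / 6}, ENNReal.ofReal (Real.exp (-(2 * N / 9) * y ^ 2)) := by
        refine setLIntegral_mono' hS fun y hy => ?_
        exact ENNReal.ofReal_le_ofReal (((hF t h.pos h.lt).2 N y).trans (gp_low hC hN h hy))
    _ ≤ ∫⁻ y : ℝ, ENNReal.ofReal (Real.exp (-(2 * N / 9) * y ^ 2)) := setLIntegral_le_lintegral _ _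
    _ = ENNReal.ofReal (∫ y : ℝ, Real.exp (-(2 * N / 9) * y ^ 2)) := by
        rw [ofReal_integral_eq_lintegral_ofReal (integrable_exp_neg_mul_sq hb)
          (Filter.Eventually.of_forall fun y => (Real.exp_pos _).le)]
    _ ≤ ENNReal.ofReal (4 / √N) := by
        rw [integral_gaussian]
        apply ENNReal.ofReal_le_ofReal
        have h4 : (4 : ℝ) / √N = √(16 / N) := by
          rw [Real.sqrt_div (by norm_num), show (16 : ℝ) = 4 ^ 2 by norm_num,
            Real.sqrt_sq (by norm_num)]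
        rw [h4]
        apply Real.sqrt_le_sqrt
        rw [div_le_div_iff₀ hb hNpos]
        nlinarith [Real.pi_lt_d2]

end Pool.Agent.H1.BL
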